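import Pool.Agent.H37.LT.MxA
import Mathlib.Analysis.Calculus.BumpFunction.SmoothApprox

/-!
# Mollification of bounded Lipschitz functions
-/

set_option autoImplicit false

open MeasureTheory Set Filter Topology Pool.Agent.H25.Kin Pool.Agent.H37.LT ContinuousLinearMap Metric
open scoped Convolution

namespace Pool.Agent.H37.OL

variable {d : ℕ}

private theorem len_up (z : Vec d) : len z ≤ ((d : ℝ) + 1) * ‖z‖ := by
  unfold len
  refine Real.sqrt_le_iff.2 ⟨by positivity, (sq_le z).trans ?_⟩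
  have h : (d : ℝ) ≤ ((d : ℝ) + 1) ^ 2 := by
    have : (0 : ℝ) ≤ d := Nat.cast_nonneg d
    nlinarith
  rw [mul_pow]
  exact mul_le_mul_of_nonneg_right h (sq_nonneg _)

theorem mol {A : ℝ} {ψ : Vec d → ℝ} (hψ : TF A ψ) {r : ℝ} (hr : 0 < r) :
    ∃ ψ' : Vec d → ℝ, ContDiff ℝ 1 ψ' ∧ (∀ v, |ψ' v| ≤ A) ∧
      (∀ i v, |pd i ψ' v| ≤ A * ((d : ℝ) + 1)) ∧ ∀ v, |ψ' v - ψ v| ≤ r := by
  have hA0 : 0 ≤ A := (abs_nonneg _).trans (hψ.bd 0)
  have hc : Continuous ψ := TF_cont hψ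
  obtain ⟨s, hs, hsr⟩ : ∃ s : ℝ, 0 < s ∧ A * (((d : ℝ) + 1) * s) ≤ r := by
    refine ⟨r / ((A + 1) * ((d : ℝ) + 1)), by positivity, ?_⟩
    have e : A * (((d : ℝ) + 1) * (r / ((A + 1) * ((d : ℝ) + 1)))) = A / (A + 1) * r := by
      field_simp
    rw [e]
    have h : A / (A + 1) ≤ 1 := by
      rw [div_le_one (by positivity)]; linarith
    calc A / (A + 1) * r ≤ 1 * r := mul_le_mul_of_nonneg_right h hr.le
      _ = r := one_mul r
  obtain ⟨φ, hφ⟩ : ∃ φ : ContDiffBump (0 : Vec d), φ.rOut = s :=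
    ⟨⟨s / 2, s, by positivity, by linarith⟩, rfl⟩
  set ρ : Vec d → ℝ := φ.normed volume with hρ
  have ρ0 : ∀ z, 0 ≤ ρ z := fun z => φ.nonneg_normed z
  have ρi : Integrable ρ := φ.integrable_normed
  have ρ1 : ∫ z, ρ z = 1 := φ.integral_normed
  have e0 : ∀ x, (ρ ⋆[lsmul ℝ ℝ, volume] ψ : Vec d → ℝ) x = ∫ z, ρ z * ψ (x - z) := fun x => rfl
  have ii : ∀ x, Integrable fun z => ρ z * ψ (x - z) := by
    intro x
    refine (ρi.mul_const A).mono' (φ.continuous_normed.mul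
      (hc.comp (continuous_const.sub continuous_id))).aestronglyMeasurable
      (Eventually.of_forall fun z => ?_)
    rw [norm_mul, Real.norm_eq_abs, Real.norm_eq_abs, abs_of_nonneg (ρ0 z)]
    exact mul_le_mul_of_nonneg_left (hψ.bd _) (ρ0 z)
  have hlip : ∀ x y, |(ρ ⋆[lsmul ℝ ℝ, volume] ψ : Vec d → ℝ) x -
      (ρ ⋆[lsmul ℝ ℝ, volume] ψ : Vec d → ℝ) y| ≤ A * len (x - y) := by
    intro x y
    rw [e0, e0, ← integral_sub (ii x) (ii y), ← Real.norm_eq_abs]
    have h : ‖∫ z, (ρ z * ψ (x - z) - ρ z * ψ (y - z))‖ ≤ ∫ z, ρ z * (A * len (x - y)) := by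
      refine norm_integral_le_of_norm_le (ρi.mul_const _) (Eventually.of_forall fun z => ?_)
      rw [← mul_sub, norm_mul, Real.norm_eq_abs, Real.norm_eq_abs, abs_of_nonneg (ρ0 z)]
      refine mul_le_mul_of_nonneg_left ?_ (ρ0 z)
      have h2 := hψ.lip (x - z) (y - z)
      have e : x - z - (y - z) = x - y := by abel
      rwa [e] at h2
    rwa [integral_mul_const, ρ1, one_mul] at h
  refine ⟨(ρ ⋆[lsmul ℝ ℝ, volume] ψ : Vec d → ℝ), ?_, ?_, ?_, ?_⟩
  · exact φ.hasCompactSupport_normed.contDiff_convolution_left _ φ.contDiff_normed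
      hc.locallyIntegrable
  · intro x
    rw [e0, ← Real.norm_eq_abs]
    have h : ‖∫ z, ρ z * ψ (x - z)‖ ≤ ∫ z, ρ z * A := by
      refine norm_integral_le_of_norm_le (ρi.mul_const _) (Eventually.of_forall fun z => ?_)
      rw [norm_mul, Real.norm_eq_abs, Real.norm_eq_abs, abs_of_nonneg (ρ0 z)]
      exact mul_le_mul_of_nonneg_left (hψ.bd _) (ρ0 z)
    rwa [integral_mul_const, ρ1, one_mul] at h
  · intro i v
    have hK : 0 ≤ A * ((d : ℝ) + 1) := by positivity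
    have h := norm_fderiv_le_of_lip' ℝ (x₀ := v) (f := (ρ ⋆[lsmul ℝ ℝ, volume] ψ : Vec d → ℝ))
      hK (Eventually.of_forall fun y => by
        rw [Real.norm_eq_abs]
        refine (hlip y v).trans ?_
        calc A * len (y - v) ≤ A * (((d : ℝ) + 1) * ‖y - v‖) :=
              mul_le_mul_of_nonneg_left (len_up _) hA0
          _ = A * ((d : ℝ) + 1) * ‖y - v‖ := by ring)
    exact (pd_le i (ρ ⋆[lsmul ℝ ℝ, volume] ψ : Vec d → ℝ) v).trans h
  · intro v
    rw [← Real.dist_eq]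
    refine φ.dist_normed_convolution_le hc.aestronglyMeasurable fun x hx => ?_
    rw [Real.dist_eq]
    refine (hψ.lip x v).trans (le_trans ?_ hsr)
    refine mul_le_mul_of_nonneg_left ((len_up _).trans ?_) hA0
    refine mul_le_mul_of_nonneg_left ?_ (by positivity)
    rw [mem_ball, dist_eq_norm, hφ] at hx
    exact hx.le

end Pool.Agent.H37.OL
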