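import Pool.Agent.H19.EN.Dis
import Pool.Agent.H15.EL.Rem

/-!
# Weak form of the Landau operator with a bounded smooth test function, Cauchy-Schwarz with the entropy production
-/

set_option autoImplicit false

open MeasureTheory Set Filter Topology Pool.Agent.H25.Kin Pool.Agent.H19.EN

namespace Pool.Agent.H37.OL

variable {d : ℕ} {γ : ℝ}

private theorem le_flux_mul (h1 : -2 < γ) (h2 : γ ≤ 0) {g : Vec d → ℝ} (hg : Nice g) (i : Fin d)
    {P : Vec d → ℝ} (ra : ∀ j, RD (fun v => P v * pd j g v)) (rb : RD (fun v => P v * g v))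
    (hPm : Measurable P) :
    ∫ v, landauFlux γ g i v * P v = ∑ j, ∫ p : Vec d × Vec d,
      landauA γ (p.1 - p.2) i j * (P p.1 - P p.2) * (pd j g p.1 * g p.2) ∂(volume.prod volume) := by
  rw [landauFlux_funext h1 h2 hg i]
  have k := fun j => kern_landauA (d := d) h1 h2 i j
  have mg := hg.cont.measurable
  have mp := fun j => (hg.pd_cont j).measurable
  have ca : ∀ j, Continuous (conv (fun z => landauA γ z i j) g) := fun j =>
    continuous_iff_continuousAt.2 fun v =>
      ((k j).conv_hasFDerivAt (hg.smooth.of_le (by norm_num)) hg.rd hg.rd1 v).continuousAt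
  have cb : ∀ j, Continuous (conv (fun z => landauA γ z i j) (pd j g)) := fun j =>
    continuous_iff_continuousAt.2 fun v =>
      ((k j).conv_hasFDerivAt (hg.pd_smooth1 j) (hg.pd_RD j) (hg.pd_rd1 j) v).continuousAt
  have i1 : ∀ j, Integrable (fun v => (P v * pd j g v) * conv (fun z => landauA γ z i j) g v) :=
    fun j => ((ra j).mul_PG ((k j).conv_PG hg.rd)).integrable
      ((hPm.mul (mp j)).mul (ca j).measurable).aestronglyMeasurable
  have i2 : ∀ j, Integrable (fun v => (P v * g v) * conv (fun z => landauA γ z i j) (pd j g) v) :=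
    fun j => (rb.mul_PG ((k j).conv_PG (hg.pd_RD j))).integrable
      ((hPm.mul mg).mul (cb j).measurable).aestronglyMeasurable
  have e : ∀ v, (∑ j, (pd j g v * conv (fun z => landauA γ z i j) g v -
      g v * conv (fun z => landauA γ z i j) (pd j g) v)) * P v =
      ∑ j, ((P v * pd j g v) * conv (fun z => landauA γ z i j) g v -
        (P v * g v) * conv (fun z => landauA γ z i j) (pd j g) v) := by
    intro v
    rw [Finset.sum_mul]
    refine Finset.sum_congr rfl fun j _ => ?_
    ring
  simp_rw [e]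
  rw [integral_finsetSum]
  swap
  · intro j _; exact (i1 j).sub (i2 j)
  refine Finset.sum_congr rfl fun j _ => ?_
  rw [integral_sub (i1 j) (i2 j), (k j).integral_conv_mul (ra j) hg.rd (hPm.mul (mp j)) mg,
    (k j).integral_conv_mul rb (hg.pd_RD j) (hPm.mul mg) (mp j),
    bil_symm (fun z => landauA_neg γ z i j) (fun v => P v * g v)]
  unfold bil
  rw [← integral_sub ((k j).integrable_prod (ra j) hg.rd (hPm.mul (mp j)) mg)
    ((k j).integrable_prod (hg.pd_RD j) rb (mp j) (hPm.mul mg))]
  refine integral_congr_ae (Eventually.of_forall fun p => ?_)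
  simp only
  ring

private theorem le_flux_int (h1 : -2 < γ) (h2 : γ ≤ 0) {g : Vec d → ℝ} (hg : Nice g) (i j : Fin d)
    {P : Vec d → ℝ} (ra : ∀ j, RD (fun v => P v * pd j g v)) (rb : RD (fun v => P v * g v))
    (hPm : Measurable P) :
    Integrable (fun p : Vec d × Vec d =>
      landauA γ (p.1 - p.2) i j * (P p.1 - P p.2) * (pd j g p.1 * g p.2))
      (volume.prod volume) := by
  have k := kern_landauA (d := d) h1 h2 i j
  have mg := hg.cont.measurable
  have mp := (hg.pd_cont j).measurable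
  have := (k.integrable_prod (ra j) hg.rd (hPm.mul mp) mg).sub
    (k.integrable_prod (hg.pd_RD j) rb mp (hPm.mul mg))
  refine this.congr (Eventually.of_forall fun p => ?_)
  simp only [Pi.sub_apply]
  ring

/-- the quadratic form of the Landau matrix -/
private theorem di_psd (γ : ℝ) (z ξ : Vec d) :
    ∑ i, ∑ j, landauA γ z i j * (ξ i * ξ j) =
      (nsq z * nsq ξ - (∑ i, z i * ξ i) ^ 2) * nsq z ^ (γ / 2) := by
  have h2 : ∀ i j, landauA γ z i j * (ξ i * ξ j) =
      ((if i = j then nsq z * ξ i ^ 2 else 0) - (z i * ξ i) * (z j * ξ j)) * nsq z ^ (γ / 2) := by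
    intro i j
    unfold landauA
    by_cases h : i = j
    · subst h; simp only [if_true]; ring
    · simp only [h, if_false]; ring
  simp_rw [h2]
  simp_rw [← Finset.sum_mul, Finset.sum_sub_distrib]
  congr 1
  have h3 : ∀ i : Fin d, ∑ j, (if i = j then nsq z * ξ i ^ 2 else 0) = nsq z * ξ i ^ 2 := by
    intro i
    rw [Finset.sum_ite_eq]
    simp
  simp_rw [h3]
  rw [← Finset.mul_sum]
  have h4 : ∑ i, ∑ j, z i * ξ i * (z j * ξ j) = (∑ i, z i * ξ i) ^ 2 := by
    rw [pow_two, Finset.sum_mul_sum]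
  rw [h4]
  rfl

/-- the quadratic form is nonnegative -/
private theorem wk_nn (γ : ℝ) (z ξ : Vec d) : 0 ≤ ∑ i, ∑ j, landauA γ z i j * (ξ i * ξ j) := by
  rw [di_psd]
  refine mul_nonneg ?_ (Real.rpow_nonneg (sq_nonneg' z) _)
  have h := Finset.sum_mul_sq_le_sq_mul_sq Finset.univ z ξ
  unfold nsq
  linarith

/-- upper bound of the quadratic form -/
private theorem wk_up (h1 : -2 < γ) (h2 : γ ≤ 0) (v w ξ : Vec d) {B : ℝ} (hB : ∀ i, |ξ i| ≤ B) :
    ∑ i, ∑ j, landauA γ (v - w) i j * (ξ i * ξ j) ≤ 2 * (d * B ^ 2) * (wv v * wv w) := by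
  rw [di_psd]
  have hz := sq_nonneg' (v - w)
  have hξ : nsq ξ ≤ d * B ^ 2 := by
    unfold nsq
    calc ∑ i, ξ i ^ 2 ≤ ∑ _i : Fin d, B ^ 2 := Finset.sum_le_sum fun i _ => by
          rw [← sq_abs]
          exact pow_le_pow_left₀ (abs_nonneg _) (hB i) 2
      _ = d * B ^ 2 := by simp
  have hp : nsq (v - w) * nsq (v - w) ^ (γ / 2) ≤ 1 + nsq (v - w) := by
    rcases hz.eq_or_lt with h | h
    · rw [← h, zero_mul]; linarith
    · have e : nsq (v - w) * nsq (v - w) ^ (γ / 2) = nsq (v - w) ^ (1 + γ / 2) := by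
        rw [Real.rpow_add h, Real.rpow_one]
      rw [e]
      have e2 : nsq (v - w) ^ (1 + γ / 2) ≤ (1 + nsq (v - w)) ^ (1 + γ / 2) :=
        Real.rpow_le_rpow h.le (by linarith) (by linarith)
      have e3 : (1 + nsq (v - w)) ^ (1 + γ / 2) ≤ (1 + nsq (v - w)) ^ (1 : ℝ) :=
        Real.rpow_le_rpow_of_exponent_le (by linarith) (by linarith)
      rw [Real.rpow_one] at e3
      exact e2.trans e3
  have hb : 1 + nsq (v - w) ≤ 2 * (wv v * wv w) := by
    have h3 : nsq (v - w) ≤ 2 * nsq v + 2 * nsq w := by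
      unfold nsq
      rw [Finset.mul_sum, Finset.mul_sum, ← Finset.sum_add_distrib]
      refine Finset.sum_le_sum fun k _ => ?_
      simp only [Pi.sub_apply]
      nlinarith [sq_nonneg (v k + w k)]
    have h4 := sq_nonneg' v
    have h5 := sq_nonneg' w
    unfold wv
    nlinarith [mul_nonneg h4 h5]
  have hr : 0 ≤ nsq (v - w) ^ (γ / 2) := Real.rpow_nonneg hz _
  have hc : 0 ≤ (∑ i, (v - w) i * ξ i) ^ 2 := sq_nonneg _
  have hdB : 0 ≤ (d : ℝ) * B ^ 2 := by positivity
  calc (nsq (v - w) * nsq ξ - (∑ i, (v - w) i * ξ i) ^ 2) * nsq (v - w) ^ (γ / 2)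
      ≤ (nsq (v - w) * nsq ξ) * nsq (v - w) ^ (γ / 2) :=
        mul_le_mul_of_nonneg_right (by linarith) hr
    _ = nsq ξ * (nsq (v - w) * nsq (v - w) ^ (γ / 2)) := by ring
    _ ≤ (d * B ^ 2) * (2 * (wv v * wv w)) :=
        mul_le_mul hξ (hp.trans hb) (mul_nonneg hz hr) hdB
    _ = _ := by ring

/-- Cauchy-Schwarz for the quadratic form -/
private theorem wk_cs (z X Y : Vec d) {t : ℝ} (ht : 0 < t) :
    |∑ i, ∑ j, landauA γ z i j * (Y i * X j)| ≤
      t / 2 * (∑ i, ∑ j, landauA γ z i j * (X i * X j)) +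
        1 / (2 * t) * ∑ i, ∑ j, landauA γ z i j * (Y i * Y j) := by
  set qX := ∑ i, ∑ j, landauA γ z i j * (X i * X j) with hqX
  set qY := ∑ i, ∑ j, landauA γ z i j * (Y i * Y j) with hqY
  set qYX := ∑ i, ∑ j, landauA γ z i j * (Y i * X j) with hqYX
  have hsym : ∑ i, ∑ j, landauA γ z i j * (X i * Y j) = qYX := by
    rw [hqYX, Finset.sum_comm]
    refine Finset.sum_congr rfl fun i _ => Finset.sum_congr rfl fun j _ => ?_
    have : landauA γ z j i = landauA γ z i j := by
      unfold landauA
      by_cases h : i = j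
      · subst h; rfl
      · have h' : ¬ j = i := fun e => h e.symm
        simp only [h, h', if_false]
        ring
    rw [this]
    ring
  have key : ∀ σ : ℝ, 0 ≤ t ^ 2 * qX + 2 * (t * σ) * qYX + σ ^ 2 * qY := by
    intro σ
    have h := wk_nn γ z (fun i => t * X i + σ * Y i)
    have e : ∑ i, ∑ j, landauA γ z i j * ((t * X i + σ * Y i) * (t * X j + σ * Y j)) =
        t ^ 2 * qX + 2 * (t * σ) * qYX + σ ^ 2 * qY := by
      have e1 : ∀ i j, landauA γ z i j * ((t * X i + σ * Y i) * (t * X j + σ * Y j)) =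
          t ^ 2 * (landauA γ z i j * (X i * X j)) + (t * σ) * (landauA γ z i j * (X i * Y j)) +
            (t * σ) * (landauA γ z i j * (Y i * X j)) + σ ^ 2 * (landauA γ z i j * (Y i * Y j)) := by
        intro i j; ring
      simp_rw [e1, Finset.sum_add_distrib, ← Finset.mul_sum]
      rw [hsym]
      ring
    rw [← e]
    exact h
  have k1 := key 1
  have k2 := key (-1)
  have e3 : t / 2 * qX + 1 / (2 * t) * qY = (t ^ 2 * qX + qY) / (2 * t) := by
    field_simp
  rw [e3, abs_le, le_div_iff₀ (by positivity), ← neg_div, div_le_iff₀ (by positivity)]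
  constructor <;> nlinarith

/-- the kernel of the weak form -/
private noncomputable def wS (γ : ℝ) (g φ : Vec d → ℝ) (p : Vec d × Vec d) : ℝ := ∑ i, ∑ j,
    landauA γ (p.1 - p.2) i j * (pd i φ p.1 - pd i φ p.2) * (pd j g p.1 * g p.2)

/-- the weak form -/
private theorem wk_key (h1 : -2 < γ) (h2 : γ ≤ 0) {g φ : Vec d → ℝ} (hg : Nice g)
    (hφ : Differentiable ℝ φ) (hl : PG φ) (ra : ∀ i j, RD fun v => pd i φ v * pd j g v)
    (rb : ∀ i, RD fun v => pd i φ v * g v) :
    Integrable (wS γ g φ) (volume.prod volume) ∧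
      ∫ v, landauQ γ g v * φ v = -∫ p, wS γ g φ p ∂(volume.prod volume) := by
  have hPm : ∀ i, Measurable (pd i φ) := fun i => measurable_fderiv_apply_const ℝ _ _
  have hfr : ∀ i, RD fun v => landauFlux γ g i v * pd i φ v := by
    intro i
    rw [landauFlux_funext h1 h2 hg i]
    have k := fun j => kern_landauA (d := d) h1 h2 i j
    have e : (fun v => (∑ j, (pd j g v * conv (fun z => landauA γ z i j) g v -
        g v * conv (fun z => landauA γ z i j) (pd j g) v)) * pd i φ v) =
        fun v => ∑ j, ((pd i φ v * pd j g v) * conv (fun z => landauA γ z i j) g v -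
          (pd i φ v * g v) * conv (fun z => landauA γ z i j) (pd j g) v) := by
      funext v
      rw [Finset.sum_mul]
      refine Finset.sum_congr rfl fun j _ => ?_
      ring
    rw [e]
    refine RD.sum' _ fun j _ => ?_
    exact ((ra i j).mul_PG ((k j).conv_PG hg.rd)).sub
      ((rb i).mul_PG ((k j).conv_PG (hg.pd_RD j)))
  have mφ : Measurable φ := hφ.continuous.measurable
  have hibp : ∀ i, ∫ v, pd i (landauFlux γ g i) v * φ v =
      -∫ v, landauFlux γ g i v * pd i φ v := by
    intro i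
    have hJ := landauFlux_diff h1 h2 hg i
    have hJr := landauFlux_RD h1 h2 hg i
    have hJ1 := landauFlux_RD1 h1 h2 hg i
    have m1 : Measurable (pd i (landauFlux γ g i)) := measurable_fderiv_apply_const ℝ _ _
    have mJ : Measurable (landauFlux γ g i) := hJ.continuous.measurable
    have r1 : RD (pd i (landauFlux γ g i)) := hJ1.mono 1 fun v => by rw [one_mul]; exact pd_le i _ v
    have h := integral_mul_fderiv_eq_neg_fderiv_mul_of_integrable (μ := (volume : Measure (Vec d)))
      (f := landauFlux γ g i) (g := φ) (v := Pi.single i 1)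
      ((r1.mul_PG hl).integrable (m1.mul mφ).aestronglyMeasurable)
      ((hfr i).integrable (mJ.mul (hPm i)).aestronglyMeasurable)
      ((hJr.mul_PG hl).integrable (mJ.mul mφ).aestronglyMeasurable)
      (fun x _ => hJ x) (fun x _ => hφ x)
    have h' : ∫ v, landauFlux γ g i v * pd i φ v = -∫ v, pd i (landauFlux γ g i) v * φ v := h
    rw [h', neg_neg]
  have hsum : ∫ v, landauQ γ g v * φ v = -∑ i, ∫ v, landauFlux γ g i v * pd i φ v := by
    unfold landauQ
    simp_rw [Finset.sum_mul]
    rw [integral_finsetSum]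
    · rw [← Finset.sum_neg_distrib]
      exact Finset.sum_congr rfl fun i _ => hibp i
    · intro i _
      have m1 : Measurable (pd i (landauFlux γ g i)) := measurable_fderiv_apply_const ℝ _ _
      have r1 : RD (pd i (landauFlux γ g i)) :=
        (landauFlux_RD1 h1 h2 hg i).mono 1 fun v => by rw [one_mul]; exact pd_le i _ v
      exact (r1.mul_PG hl).integrable (m1.mul mφ).aestronglyMeasurable
  have hint : ∀ i j, Integrable (fun p : Vec d × Vec d =>
      landauA γ (p.1 - p.2) i j * (pd i φ p.1 - pd i φ p.2) *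
        (pd j g p.1 * g p.2)) (volume.prod volume) := fun i j =>
    le_flux_int h1 h2 hg i j (ra i) (rb i) (hPm i)
  have hKint : Integrable (wS γ g φ) (volume.prod volume) :=
    integrable_finsetSum _ fun i _ => integrable_finsetSum _ fun j _ => hint i j
  have hKeq : ∑ i, ∫ v, landauFlux γ g i v * pd i φ v = ∫ p, wS γ g φ p ∂(volume.prod volume) := by
    have e1 : ∫ p, wS γ g φ p ∂(volume.prod volume) = ∑ i, ∑ j, ∫ p : Vec d × Vec d,
        landauA γ (p.1 - p.2) i j * (pd i φ p.1 - pd i φ p.2) *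
          (pd j g p.1 * g p.2) ∂(volume.prod volume) := by
      unfold wS
      rw [integral_finsetSum]
      · refine Finset.sum_congr rfl fun i _ => ?_
        rw [integral_finsetSum]
        intro j _; exact hint i j
      · intro i _
        exact integrable_finsetSum _ fun j _ => hint i j
    rw [e1]
    exact Finset.sum_congr rfl fun i _ => le_flux_mul h1 h2 hg i (ra i) (rb i) (hPm i)
  refine ⟨hKint, ?_⟩
  rw [hsum, hKeq]

/-- the symmetrised kernel -/
private theorem wk_sym {G : Vec d → ℝ} (hG : Rg G) (φ : Vec d → ℝ) (v w : Vec d) :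
    wS γ G φ (v, w) + wS γ G φ (w, v) =
        (G v * G w) * ∑ i, ∑ j, landauA γ (v - w) i j *
          ((pd i φ v - pd i φ w) * (lg G j v - lg G j w)) := by
  have hv := hG.pos v
  have hw := hG.pos w
  simp only [wS, lg]
  rw [← Finset.sum_add_distrib, Finset.mul_sum]
  refine Finset.sum_congr rfl fun i _ => ?_
  rw [← Finset.sum_add_distrib, Finset.mul_sum]
  refine Finset.sum_congr rfl fun j _ => ?_
  have e3 : landauA γ (w - v) i j = landauA γ (v - w) i j := by
    rw [← landauA_neg, neg_sub]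
  rw [e3]
  field_simp
  ring

/-- the integral of the symmetrised kernel -/
private theorem wk_two (h1 : -2 < γ) (h2 : γ ≤ 0) {g φ : Vec d → ℝ} (hg : Nice g)
    (hφ : Differentiable ℝ φ) (hl : PG φ) (ra : ∀ i j, RD fun v => pd i φ v * pd j g v)
    (rb : ∀ i, RD fun v => pd i φ v * g v) :
    Integrable (fun p : Vec d × Vec d => wS γ g φ p + wS γ g φ p.swap) (volume.prod volume) ∧
      ∫ p, (wS γ g φ p + wS γ g φ p.swap) ∂(volume.prod volume) =
        -(2 * ∫ v, landauQ γ g v * φ v) := by
  obtain ⟨hK, he⟩ := wk_key h1 h2 hg hφ hl ra rb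
  have hKs : Integrable (fun p : Vec d × Vec d => wS γ g φ p.swap) (volume.prod volume) := hK.swap
  have hswap : ∫ p, wS γ g φ p.swap ∂(volume.prod volume) = ∫ p, wS γ g φ p ∂(volume.prod volume) :=
    integral_prod_swap (μ := (volume : Measure (Vec d))) (ν := (volume : Measure (Vec d))) (wS γ g φ)
  refine ⟨hK.add hKs, ?_⟩
  rw [integral_add hK hKs, hswap, he]
  ring

/-- **Cauchy-Schwarz with the entropy production**, bounded smooth test function -/
theorem wk_le (h1 : -2 < γ) (h2 : γ ≤ 0) {G : Vec d → ℝ} (hG : Rg G) {ψ : Vec d → ℝ} {A : ℝ}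
    (hψ : ContDiff ℝ 1 ψ) (hb : ∀ v, |ψ v| ≤ A) (hp : ∀ i v, |pd i ψ v| ≤ A) {t : ℝ} (ht : 0 < t) :
    |∫ v, landauQ γ G v * ψ v| ≤
      t / 2 * EP γ G + 2 * d * A ^ 2 / t * (∫ v, G v * wv v) ^ 2 := by
  have hN := hG.nice
  have hpos := hG.pos
  -- the logarithm
  have hld : Differentiable ℝ fun v => Real.log (G v) := fun v => (hN.diff v).log (hpos v).ne'
  have hlpd : ∀ i v, pd i (fun v => Real.log (G v)) v = lg G i v := by
    intro i v
    unfold pd lg
    rw [fderiv.log (hN.diff v) (hpos v).ne', smul_apply, smul_eq_mul]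
    unfold pd
    ring
  have hra : ∀ i j, RD fun v => pd i (fun v => Real.log (G v)) v * pd j G v := by
    intro i j
    refine ((hG.sq i).add (hG.sq j)).mono 1 fun v => ?_
    have hp := hpos v
    rw [hlpd, one_mul, Real.norm_eq_abs, Real.norm_eq_abs,
      abs_of_nonneg (by positivity : 0 ≤ (pd i G v) ^ 2 / G v + (pd j G v) ^ 2 / G v)]
    have e : lg G i v * pd j G v = (pd i G v * pd j G v) / G v := by unfold lg; ring
    rw [e, abs_div, abs_of_pos hp, ← add_div]
    refine div_le_div_of_nonneg_right ?_ hp.le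
    rw [abs_le]
    constructor <;> nlinarith [sq_nonneg (pd i G v - pd j G v), sq_nonneg (pd i G v + pd j G v)]
  have hrb : ∀ i, RD fun v => pd i (fun v => Real.log (G v)) v * G v := by
    intro i
    have e : (fun v => pd i (fun v => Real.log (G v)) v * G v) = pd i G := by
      funext v
      rw [hlpd]
      exact div_mul_cancel₀ _ (hpos v).ne'
    rw [e]
    exact hN.pd_RD i
  obtain ⟨jL, eL⟩ := wk_two h1 h2 hN hld hG.plog hra hrb
  -- the test function
  have hA0 : 0 ≤ A := (abs_nonneg _).trans (hb 0)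
  have hψP : PG ψ := ⟨0, A, fun v => by simpa using hb v⟩
  have hpP : ∀ i, PG (pd i ψ) := fun i => ⟨0, A, fun v => by simpa using hp i v⟩
  have ra : ∀ i j, RD fun v => pd i ψ v * pd j G v := by
    intro i j
    have h := (hN.pd_RD j).mul_PG (hpP i)
    have e : (fun v => pd i ψ v * pd j G v) = fun v => pd j G v * pd i ψ v := by
      funext v; ring
    rw [e]
    exact h
  have rb : ∀ i, RD fun v => pd i ψ v * G v := by
    intro i
    have h := hN.rd.mul_PG (hpP i)
    have e : (fun v => pd i ψ v * G v) = fun v => G v * pd i ψ v := by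
      funext v; ring
    rw [e]
    exact h
  obtain ⟨jP, eP⟩ := wk_two h1 h2 hN (hψ.differentiable (by norm_num)) hψP ra rb
  -- the majorant
  have iw : Integrable fun v => G v * wv v := by
    have h : PG fun v : Vec d => wv v := (PG.const 1).add PG.nsq
    exact (hN.rd.mul_PG h).integrable (hN.cont.mul wv_cont).aestronglyMeasurable
  have iww : Integrable (fun p : Vec d × Vec d => (G p.1 * wv p.1) * (G p.2 * wv p.2))
      (volume.prod volume) := iw.mul_prod iw
  have hpt : ∀ p : Vec d × Vec d, |wS γ G ψ p + wS γ G ψ p.swap| ≤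
      t / 2 * (wS γ G (fun v => Real.log (G v)) p + wS γ G (fun v => Real.log (G v)) p.swap) +
        4 * d * A ^ 2 / t * ((G p.1 * wv p.1) * (G p.2 * wv p.2)) := by
    rintro ⟨v, w⟩
    have hv := hpos v
    have hw := hpos w
    have e1 := wk_sym (γ := γ) hG ψ v w
    have e2 := wk_sym (γ := γ) hG (fun v => Real.log (G v)) v w
    simp only [Prod.swap_prod_mk]
    rw [e1, e2, abs_mul, abs_of_pos (mul_pos hv hw)]
    have h3 := wk_cs (γ := γ) (v - w) (fun j => lg G j v - lg G j w)
      (fun i => pd i ψ v - pd i ψ w) ht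
    have h4 := wk_up h1 h2 v w (fun i => pd i ψ v - pd i ψ w) (B := 2 * A) (fun i => by
      have h5 := hp i v
      have h6 := hp i w
      calc |pd i ψ v - pd i ψ w| ≤ |pd i ψ v| + |pd i ψ w| := abs_sub _ _
        _ ≤ 2 * A := by linarith)
    have e5 : ∑ i, ∑ j, landauA γ (v - w) i j *
        ((pd i (fun v => Real.log (G v)) v - pd i (fun v => Real.log (G v)) w) *
          (lg G j v - lg G j w)) = ∑ i, ∑ j, landauA γ (v - w) i j *
        ((lg G i v - lg G i w) * (lg G j v - lg G j w)) := by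
      simp only [hlpd]
    rw [e5]
    have h7 := mul_le_mul_of_nonneg_left h4 (by positivity : 0 ≤ 1 / (2 * t))
    calc G v * G w * |∑ i, ∑ j, landauA γ (v - w) i j *
          ((pd i ψ v - pd i ψ w) * (lg G j v - lg G j w))|
        ≤ G v * G w * (t / 2 * (∑ i, ∑ j, landauA γ (v - w) i j *
          ((lg G i v - lg G i w) * (lg G j v - lg G j w))) +
          1 / (2 * t) * (2 * (d * (2 * A) ^ 2) * (wv v * wv w))) :=
          mul_le_mul_of_nonneg_left (h3.trans (by linarith)) (mul_pos hv hw).le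
      _ = _ := by
          field_simp
          ring
  have h8 : |∫ p, (wS γ G ψ p + wS γ G ψ p.swap) ∂(volume.prod volume)| ≤
      ∫ p, (t / 2 * (wS γ G (fun v => Real.log (G v)) p + wS γ G (fun v => Real.log (G v)) p.swap) +
        4 * d * A ^ 2 / t * ((G p.1 * wv p.1) * (G p.2 * wv p.2))) ∂(volume.prod volume) := by
    rw [← Real.norm_eq_abs]
    exact norm_integral_le_of_norm_le ((jL.const_mul _).add (iww.const_mul _))
      (Eventually.of_forall hpt)
  have e9 : ∫ p, (t / 2 * (wS γ G (fun v => Real.log (G v)) p +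
        wS γ G (fun v => Real.log (G v)) p.swap) +
        4 * d * A ^ 2 / t * ((G p.1 * wv p.1) * (G p.2 * wv p.2))) ∂(volume.prod volume) =
      t / 2 * (2 * EP γ G) + 4 * d * A ^ 2 / t * ((∫ v, G v * wv v) * ∫ v, G v * wv v) := by
    rw [integral_add (jL.const_mul _) (iww.const_mul _), integral_const_mul, integral_const_mul, eL,
      integral_prod_mul (fun v => G v * wv v) (fun v => G v * wv v)]
    unfold EP
    ring
  rw [e9, eP, abs_neg, abs_mul, abs_two] at h8
  have e10 : 2 * d * A ^ 2 / t * (∫ v, G v * wv v) ^ 2 =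
      (4 * d * A ^ 2 / t * ((∫ v, G v * wv v) * ∫ v, G v * wv v)) / 2 := by ring
  rw [e10]
  linarith

end Pool.Agent.H37.OL
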