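import Pool.Agent.H37.LN.Defs
import Pool.Agent.H37.OL.WkL
import Pool.Agent.H37.OL.MolL

/-!
# The Landau operator tested with a Lipschitz function is controlled by the entropy production

`|∫ Q(g) ψ| ≤ K DL γ δ g + ε + η` for `ψ` bounded and Lipschitz, `δ` small: Cauchy-Schwarz for the matrix `a(v - w)` in the weak form of
`Q(g + δ gau)`, mollification of `ψ`.
-/

set_option autoImplicit false

open MeasureTheory Set Filter Topology Pool.Agent.H25.Kin Pool.Agent.H37.LT Pool.Agent.H19.EN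
open Pool.Agent.H15.AV (UNice gau)

namespace Pool.Agent.H37.OL

variable {d : ℕ} {γ : ℝ}

private theorem Q_meas (g : Vec d → ℝ) : Measurable (landauQ γ g) := by
  unfold landauQ
  exact Finset.measurable_fun_sum _ fun i _ => measurable_fderiv_apply_const ℝ _ _

private theorem Q_RD (h1 : -2 < γ) (h2 : γ ≤ 0) {g : Vec d → ℝ} (hg : Nice g) :
    RD (landauQ γ g) := by
  unfold landauQ
  refine RD.sum _ fun i _ => ?_
  exact (landauFlux_RD1 h1 h2 hg i).mono 1 fun v => by rw [one_mul]; exact pd_le i _ v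

/-- the second moment of `g + δ gau` -/
private theorem mom_le (Cl : ℕ → ℝ) : ∃ M : ℝ, 0 ≤ M ∧ ∀ g : Vec d → ℝ, Continuous g →
    (∀ v, 0 ≤ g v) → (∀ (N : ℕ) (v : Vec d), (1 + ‖v‖) ^ N * g v ≤ Cl N) →
    ∀ δ ∈ Ioc (0 : ℝ) 1, ∫ v, (g v + δ * gau v) * wv v ≤ M := by
  obtain ⟨a, ha⟩ := (Pool.Agent.H15.AV.nice_gau (d := d)).rd (d + 3)
  have ha0 : 0 ≤ a := le_trans (by positivity) (ha 0)
  have hI0 : 0 ≤ ∫ v, wt d v := integral_nonneg fun v => wt_nonneg v
  refine ⟨((d : ℝ) + 1) * (|Cl (d + 3)| + a) * ∫ v, wt d v, by positivity,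
    fun g hc h0 hl δ hδ => ?_⟩
  rw [← integral_const_mul]
  refine integral_mono_of_nonneg (Eventually.of_forall fun v => ?_)
    (integrable_wt.const_mul _) (Eventually.of_forall fun v => ?_)
  · exact mul_nonneg (add_nonneg (h0 v) (mul_nonneg hδ.1.le (Real.exp_pos _).le)) (wv_pos v).le
  · simp only
    have hw := w_pos v
    have h3 : g v + δ * gau v ≤ g v + ‖gau v‖ := by
      have h4 : gau v ≤ ‖gau v‖ := le_abs_self _
      have h5 : 0 ≤ gau v := (Real.exp_pos _).le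
      have h6 := mul_le_mul_of_nonneg_right hδ.2 h5
      linarith
    have h7 : wv v ≤ ((d : ℝ) + 1) * (1 + ‖v‖) ^ 2 := by
      have h8 := sq_le v
      have h9 : (1 : ℝ) ≤ (1 + ‖v‖) ^ 2 := one_le_pow₀ (one_le_w v)
      have h10 : ‖v‖ ^ 2 ≤ (1 + ‖v‖) ^ 2 :=
        pow_le_pow_left₀ (norm_nonneg v) (by linarith [norm_nonneg v]) 2
      have hd : (0 : ℝ) ≤ d := Nat.cast_nonneg d
      have h11 := mul_le_mul_of_nonneg_left h10 hd
      unfold wv
      linarith
    have h12 : (1 + ‖v‖) ^ (d + 3) * (g v + ‖gau v‖) ≤ |Cl (d + 3)| + a := by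
      have := hl (d + 3) v
      have := ha v
      have := le_abs_self (Cl (d + 3))
      linarith
    have hg0 : 0 ≤ g v + ‖gau v‖ := add_nonneg (h0 v) (norm_nonneg _)
    have hp : 0 < (1 + ‖v‖) ^ (d + 1) := pow_pos hw _
    calc (g v + δ * gau v) * wv v ≤ (g v + ‖gau v‖) * (((d : ℝ) + 1) * (1 + ‖v‖) ^ 2) :=
          mul_le_mul h3 h7 (wv_pos v).le hg0
      _ = ((d : ℝ) + 1) * ((1 + ‖v‖) ^ (d + 3) * (g v + ‖gau v‖)) * wt d v := by
          unfold wt
          have e : (1 + ‖v‖) ^ (d + 3) = (1 + ‖v‖) ^ (d + 1) * (1 + ‖v‖) ^ 2 := by ring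
          rw [e]
          field_simp
      _ ≤ ((d : ℝ) + 1) * (|Cl (d + 3)| + a) * wt d v :=
          mul_le_mul_of_nonneg_right (mul_le_mul_of_nonneg_left h12 (by positivity)) (wt_nonneg v)

theorem err_L (_hd : 2 ≤ d) (h1 : -2 < γ) (h2 : γ ≤ 0) (Cl : ℕ → ℝ) (A ε : ℝ) (hε : 0 < ε) :
    ∃ K : ℝ, 0 ≤ K ∧ ∀ (Cl' : ℕ → ℝ) (η : ℝ), 0 < η →
    ∃ δ₀ > 0, ∀ δ ∈ Ioc (0 : ℝ) δ₀, ∀ g : Vec d → ℝ, UNice Cl' g →
    (∀ (N : ℕ) (v : Vec d), (1 + ‖v‖) ^ N * g v ≤ Cl N) →
    ∀ ψ : Vec d → ℝ, Pool.Agent.H37.LT.TF A ψ →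
      |∫ w, landauQ γ g w * ψ w| ≤ K * Pool.Agent.H37.LN.DL γ δ g + ε + η := by
  obtain ⟨M, hM0, hM⟩ := mom_le (d := d) Cl
  set B : ℝ := |A| * ((d : ℝ) + 1) with hB
  have hB0 : 0 ≤ B := by positivity
  set X : ℝ := 2 * d * B ^ 2 * M ^ 2 with hX
  have hX0 : 0 ≤ X := by positivity
  set t : ℝ := (X + 1) / ε with ht
  have ht0 : 0 < t := by positivity
  have hXt : X / t ≤ ε := by
    rw [div_le_iff₀ ht0, ht, mul_div_cancel₀ _ hε.ne']
    linarith
  refine ⟨t / 2, by positivity, fun Cl' η hη => ?_⟩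
  obtain ⟨D, hD0, hD⟩ := Pool.Agent.H15.AV.landau_rem (d := d) h1 h2 Cl'
  have hI0 : 0 ≤ ∫ v, wt d v := integral_nonneg fun v => wt_nonneg v
  obtain ⟨δ₀, hδ0, hδ1, hδη⟩ : ∃ δ₀ : ℝ, 0 < δ₀ ∧ δ₀ ≤ 1 ∧
      |A| * (δ₀ * D * ∫ v, wt d v) ≤ η / 2 := by
    set Y : ℝ := |A| * (D * ∫ v, wt d v) with hY
    have hY0 : 0 ≤ Y := by positivity
    refine ⟨min 1 (η / 2 / (Y + 1)), lt_min one_pos (by positivity), min_le_left _ _, ?_⟩
    have h : min 1 (η / 2 / (Y + 1)) * Y ≤ η / 2 / (Y + 1) * Y :=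
      mul_le_mul_of_nonneg_right (min_le_right _ _) hY0
    have h2 : η / 2 / (Y + 1) * Y ≤ η / 2 := by
      rw [div_mul_eq_mul_div, div_le_iff₀ (by positivity)]
      nlinarith
    calc |A| * (min 1 (η / 2 / (Y + 1)) * D * ∫ v, wt d v) =
          min 1 (η / 2 / (Y + 1)) * Y := by rw [hY]; ring
      _ ≤ η / 2 := h.trans h2
  refine ⟨δ₀, hδ0, fun δ hδ g hg hl ψ hψ => ?_⟩
  have hδI : δ ∈ Ioc (0 : ℝ) 1 := ⟨hδ.1, hδ.2.trans hδ1⟩
  have hG : Rg fun v => g v + δ * gau v := rg_add hg.nice hg.nonneg hδI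
  have hA0 : 0 ≤ A := (abs_nonneg _).trans (hψ.bd 0)
  have hAA : |A| = A := abs_of_nonneg hA0
  -- integrability
  have mQ := Q_meas (γ := γ) g
  have mQG := Q_meas (γ := γ) fun v => g v + δ * gau v
  have iQ : Integrable (landauQ γ g) := (Q_RD h1 h2 hg.nice).integrable mQ.aestronglyMeasurable
  have iQG : Integrable (landauQ γ fun v => g v + δ * gau v) :=
    (Q_RD h1 h2 hG.nice).integrable mQG.aestronglyMeasurable
  set J : ℝ := ∫ v, |landauQ γ g v| with hJ
  have hJ0 : 0 ≤ J := integral_nonneg fun v => abs_nonneg _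
  obtain ⟨ψ', s1, s2, s3, s4⟩ := mol hψ (show 0 < η / 2 / (J + 1) by positivity)
  have cψ := TF_cont hψ
  have bI : ∀ {q χ : Vec d → ℝ} {c : ℝ}, Integrable q → Continuous χ → (∀ v, |χ v| ≤ c) →
      Integrable fun v => q v * χ v := by
    intro q χ c hq hχ hc
    exact hq.mul_bdd hχ.aestronglyMeasurable (Eventually.of_forall fun v => by
      rw [Real.norm_eq_abs]; exact hc v)
  have i1 : Integrable fun v => landauQ γ g v * ψ v := bI iQ cψ hψ.bd
  have i2 : Integrable fun v => landauQ γ (fun v => g v + δ * gau v) v * ψ' v :=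
    bI iQG s1.continuous s2
  have i3 : Integrable fun v => (landauQ γ (fun v => g v + δ * gau v) v - landauQ γ g v) * ψ' v :=
    bI (iQG.sub iQ) s1.continuous s2
  have i4 : Integrable fun v => landauQ γ g v * (ψ' v - ψ v) :=
    bI iQ (s1.continuous.sub cψ) s4
  have i23 : Integrable fun v => landauQ γ (fun v => g v + δ * gau v) v * ψ' v -
      (landauQ γ (fun v => g v + δ * gau v) v - landauQ γ g v) * ψ' v := i2.sub i3
  have e1 : ∫ v, landauQ γ g v * ψ v = (∫ v, landauQ γ (fun v => g v + δ * gau v) v * ψ' v) -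
      (∫ v, (landauQ γ (fun v => g v + δ * gau v) v - landauQ γ g v) * ψ' v) -
        ∫ v, landauQ γ g v * (ψ' v - ψ v) := by
    rw [← integral_sub i2 i3, ← integral_sub i23 i4]
    refine integral_congr_ae (Eventually.of_forall fun v => ?_)
    simp only
    ring
  -- the three terms
  have b1 := wk_le (γ := γ) h1 h2 hG s1 (A := B) (fun v => (s2 v).trans (by
      rw [hB, hAA]
      have : (0 : ℝ) ≤ d := Nat.cast_nonneg d
      nlinarith)) (fun i v => (s3 i v).trans (le_of_eq (by rw [hB, hAA]))) ht0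
  have b1' : |∫ v, landauQ γ (fun v => g v + δ * gau v) v * ψ' v| ≤
      t / 2 * Pool.Agent.H37.LN.DL γ δ g + ε := by
    have hm := hM g hg.nice.cont hg.nonneg hl δ hδI
    have hm0 : 0 ≤ ∫ v, (g v + δ * gau v) * wv v := integral_nonneg fun v =>
      mul_nonneg (hG.pos v).le (wv_pos v).le
    have h3 : 2 * d * B ^ 2 / t * (∫ v, (g v + δ * gau v) * wv v) ^ 2 ≤ X / t := by
      calc 2 * d * B ^ 2 / t * (∫ v, (g v + δ * gau v) * wv v) ^ 2 ≤ 2 * d * B ^ 2 / t * M ^ 2 :=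
            mul_le_mul_of_nonneg_left (pow_le_pow_left₀ hm0 hm 2) (by positivity)
        _ = X / t := by rw [hX]; ring
    have h4 : EP γ (fun v => g v + δ * gau v) = Pool.Agent.H37.LN.DL γ δ g := rfl
    rw [h4] at b1
    linarith
  have b2 : |∫ v, (landauQ γ (fun v => g v + δ * gau v) v - landauQ γ g v) * ψ' v| ≤ η / 2 := by
    have h3 : ‖∫ v, (landauQ γ (fun v => g v + δ * gau v) v - landauQ γ g v) * ψ' v‖ ≤
        ∫ v, δ * D * A * wt d v := by
      refine norm_integral_le_of_norm_le (integrable_wt.const_mul _)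
        (Eventually.of_forall fun v => ?_)
      rw [norm_mul, Real.norm_eq_abs, Real.norm_eq_abs]
      have hw := w_pos v
      have h4 := hD g hg δ hδI v
      have hp : 0 < (1 + ‖v‖) ^ (d + 1) := pow_pos hw _
      have h5 : (1 + ‖v‖) ^ (d + 1) * |landauQ γ (fun v => g v + δ * gau v) v - landauQ γ g v| ≤
          δ * D := by
        refine le_trans (mul_le_mul_of_nonneg_right ?_ (abs_nonneg _)) h4
        exact pow_le_pow_right₀ (one_le_w v) (by omega)
      have h6 : |landauQ γ (fun v => g v + δ * gau v) v - landauQ γ g v| ≤ δ * D * wt d v := by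
        unfold wt
        rw [← div_eq_mul_inv, le_div_iff₀ hp, mul_comm]
        exact h5
      calc |landauQ γ (fun v => g v + δ * gau v) v - landauQ γ g v| * |ψ' v|
          ≤ (δ * D * wt d v) * A :=
            mul_le_mul h6 (s2 v) (abs_nonneg _)
              (mul_nonneg (mul_nonneg hδ.1.le hD0) (wt_nonneg v))
        _ = _ := by ring
    rw [integral_const_mul, Real.norm_eq_abs] at h3
    refine h3.trans (le_trans ?_ hδη)
    rw [hAA]
    have h7 : δ * (D * A * ∫ v, wt d v) ≤ δ₀ * (D * A * ∫ v, wt d v) :=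
      mul_le_mul_of_nonneg_right hδ.2 (by positivity)
    linarith
  have b3 : |∫ v, landauQ γ g v * (ψ' v - ψ v)| ≤ η / 2 := by
    have h3 : ‖∫ v, landauQ γ g v * (ψ' v - ψ v)‖ ≤ ∫ v, |landauQ γ g v| * (η / 2 / (J + 1)) := by
      refine norm_integral_le_of_norm_le (iQ.abs.mul_const _) (Eventually.of_forall fun v => ?_)
      rw [norm_mul, Real.norm_eq_abs, Real.norm_eq_abs]
      exact mul_le_mul_of_nonneg_left (s4 v) (abs_nonneg _)
    rw [integral_mul_const, Real.norm_eq_abs, ← hJ] at h3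
    refine h3.trans ?_
    rw [← mul_div_assoc, div_le_iff₀ (by positivity)]
    nlinarith
  rw [e1]
  have t1 := abs_sub ((∫ v, landauQ γ (fun v => g v + δ * gau v) v * ψ' v) -
      (∫ v, (landauQ γ (fun v => g v + δ * gau v) v - landauQ γ g v) * ψ' v))
        (∫ v, landauQ γ g v * (ψ' v - ψ v))
  have t2 := abs_sub (∫ v, landauQ γ (fun v => g v + δ * gau v) v * ψ' v)
      (∫ v, (landauQ γ (fun v => g v + δ * gau v) v - landauQ γ g v) * ψ' v)
  linarith

end Pool.Agent.H37.OL
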